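import Pool.Agent.H43.Lp2

set_option autoImplicit false

namespace Pool.Agent.Results.MP_bbed2d_pr.Counter

open Pool.Agent.H43.Lp MeasureTheory ProbabilityTheory Finset
open scoped ENNReal

lemma hub {n : ℕ} (v : V n) : (G n).edist v (0, true) ≤ 2 := by
  have h : ∀ i : Fin (n + 2), (G n).edist (i, true) (0, true) ≤ 1 := fun i => by
    by_cases h : i = 0
    · simp [h]
    · exact (SimpleGraph.edist_eq_one_iff_adj.2 (adj.2 (by simp [h]))).le
  obtain ⟨i, b⟩ := v
  cases b
  · refine (SimpleGraph.edist_triangle (v := (i, true))).trans ?_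
    rw [SimpleGraph.edist_eq_one_iff_adj.2 (adj.2 (by simp))]
    exact add_le_add_right (h i) 1
  · exact (h i).trans one_le_two

lemma edist_le {n : ℕ} (u v : V n) : (G n).edist u v ≤ 4 := by
  refine (SimpleGraph.edist_triangle (v := (0, true))).trans ?_
  rw [SimpleGraph.edist_comm (u := (0, true))]
  exact (add_le_add (hub u) (hub v)).trans (by norm_num)

lemma conn (n : ℕ) : (G n).Connected :=
  ⟨fun u v => SimpleGraph.reachable_of_edist_ne_top (ne_top_of_le_ne_top (by simp) (edist_le u v))⟩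

lemma diam_le (n : ℕ) : (G n).diam ≤ 4 :=
  ENat.toNat_le_of_le_natCast (SimpleGraph.ediam_le_of_edist_le edist_le)

lemma edges (n : ℕ) : (G n).edgeFinset.card ≤ (n + 2) * 3 := by
  let e : Fin (n + 2) × Fin 3 → Sym2 (V n) := fun q =>
    if q.2 = 0 then s((q.1, false), (q.1, true)) else
      if q.2 = 1 then s((0, true), (q.1, true)) else s((q.1, false), (hi q.1, false))
  refine le_trans (card_le_card (t := univ.image e) fun x hx => ?_) (card_image_le.trans (by simp))
  induction x using Sym2.ind with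
  | _ u v =>
    obtain ⟨i, a⟩ := u
    obtain ⟨j, b⟩ := v
    rw [mem_image]
    rcases adj.1 (SimpleGraph.mem_edgeFinset.1 hx) with ⟨h1, h2, h | h⟩ | ⟨h1, h2⟩ | ⟨h1, h2, h3, h | h⟩
      <;> simp only at *
    · refine ⟨(i, 2), mem_univ _, ?_⟩
      have : hi i = j := Fin.ext (by simp only [hi]; omega)
      simp [e, h1, h2, this]
    · refine ⟨(j, 2), mem_univ _, ?_⟩
      have : hi j = i := Fin.ext (by simp only [hi]; omega)
      simp [e, h1, h2, this]
    · refine ⟨(i, 0), mem_univ _, ?_⟩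
      subst h2
      cases a <;> cases b <;> simp_all [e]
    · exact ⟨(j, 1), mem_univ _, by simp [e, h1, h2, h]⟩
    · exact ⟨(i, 1), mem_univ _, by simp [e, h1, h2, h]⟩

theorem result (p : ℝ) (hp : 2 < p) (C : ℝ) :
    ∃ (V : Type) (_ : Fintype V) (_ : DecidableEq V) (_ : MeasurableSpace V)
      (_ : DiscreteMeasurableSpace V) (G : SimpleGraph V) (_ : DecidableRel G.Adj) (I : Finset V)
      (f₀ h : V → ℝ) (ε : ℝ), G.Connected ∧ I.Nonempty ∧ Iᶜ.Nonempty ∧
      (∀ v, f₀ v ∈ Set.Icc (0 : ℝ) 1) ∧ IsHarmExt G p I f₀ h ∧ 0 < ε ∧ ε ≤ 1 / 2 ∧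
      ENNReal.ofReal (C * I.card * G.edgeFinset.card * G.diam * Real.log (Fintype.card V / ε)) <
        Etau G p I f₀ h ε := by
  obtain ⟨k, hk⟩ := exists_nat_ge (2 / (p - 2))
  obtain ⟨m, hm⟩ := exists_nat_gt (512 * |C| * (k + 4))
  have m0 : (0 : ℝ) < m := lt_of_le_of_lt (by positivity) hm
  have m1 : (1 : ℝ) ≤ m := by exact_mod_cast (Nat.cast_pos.1 m0)
  obtain ⟨n, hn⟩ : ∃ n, n + 1 = 64 * m ^ 2 :=
    ⟨64 * m ^ 2 - 1, Nat.sub_add_cancel (by have := Nat.cast_pos.1 m0; nlinarith)⟩
  have hL : (n : ℝ) + 1 = 64 * m ^ 2 := by exact_mod_cast hn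
  set L : ℝ := n + 1 with hLd
  have L64 : 64 ≤ L := by nlinarith
  have L0 : 0 < L := by linarith
  have Lk : 1 ≤ L ^ k := one_le_pow₀ (by linarith)
  set η : ℝ := 1 / L / 2 * (1 / L) ^ k with hη
  have η0 : 0 < η := by positivity
  have i1 : 1 / L ≤ 1 := (div_le_one L0).2 (by linarith)
  have η1 : η ≤ 1 / L := by
    have : (1 / L) ^ k ≤ 1 := pow_le_one₀ (by positivity) i1
    have : 0 < 1 / L := by positivity
    nlinarith
  have hκ : η ^ (p - 2) ≤ (1 / L) ^ 2 * (1 / L / 2) ^ (p - 2) := by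
    rw [hη, Real.mul_rpow (by positivity) (by positivity), mul_comm]
    refine mul_le_mul_of_nonneg_right ?_ (by positivity)
    rw [← Real.rpow_natCast, ← Real.rpow_mul (by positivity), ← Real.rpow_natCast]
    refine Real.rpow_le_rpow_of_exponent_ge (by positivity) i1 ?_
    rw [div_le_iff₀ (by linarith)] at hk
    exact_mod_cast hk
  have n0 : 0 < n := by
    have : (0 : ℝ) < n := by linarith
    exact_mod_cast this
  have key := low hp η1 hκ (by rw [← mul_pow, one_div_mul_cancel L0.ne']; norm_num) (by positivity)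
    η0 n0 (m ^ 2 * (n + 1) ^ 2) (by push_cast; rw [← hLd]; nlinarith)
  refine ⟨V n, inferInstance, inferInstance, inferInstance, inferInstance, G n, inferInstance, I n,
    _, hh n, η / 4, conn n, card_pos.1 (by rw [cardI]; exact n0), ⟨(0, true), by simp [mem_I]⟩,
    fun v => ?_, ⟨fun v hv => by simp [hv], fun v hv => ?_⟩, by positivity, by linarith,
    lt_of_lt_of_le ?_ key⟩
  · have h0 : 0 ≤ hh n v := by unfold hh; positivity
    split_ifs with h
    · refine ⟨by linarith, ?_⟩
      have := hh_hi h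
      have : hh n (hi v.1, false) ≤ 1 := (div_le_one L0).2 (by
        rw [hLd]; exact_mod_cast Nat.le_of_lt_succ (hi v.1).2)
      linarith
    · refine ⟨by linarith, ?_⟩
      rw [add_zero]
      exact (div_le_one L0).2 (by rw [hLd]; exact_mod_cast Nat.le_of_lt_succ v.1.2)
  · rw [nbr hv, hh_lo hv, hh_hi hv, show hh n (v.1, true) = hh n v from rfl, sub_sub_cancel,
      sub_add_cancel_left, Real.sign_neg, abs_neg]
    simp
  · rw [← ENNReal.ofReal_natCast, ← ENNReal.ofReal_ofNat 2,
      ← ENNReal.ofReal_div_of_pos (by norm_num), ENNReal.ofReal_lt_ofReal_iff (by push_cast; positivity)]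
    have e1 : ((G n).edgeFinset.card : ℝ) ≤ 4 * L := by
      have : ((G n).edgeFinset.card : ℝ) ≤ (n + 2) * 3 := by exact_mod_cast edges n
      linarith
    have e2 : ((G n).diam : ℝ) ≤ 4 := by exact_mod_cast diam_le n
    have e3 : ((I n).card : ℝ) ≤ L := by rw [cardI]; linarith
    have e4 : (Fintype.card (V n) : ℝ) / (η / 4) = 16 * (L + 1) * L ^ (k + 1) := by
      rw [hη]
      simp only [Fintype.card_prod, Fintype.card_fin, Fintype.card_bool]
      push_cast
      rw [show (n : ℝ) + 2 = L + 1 by linarith, one_div_pow]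
      field_simp
      ring
    have e5 : Real.log (16 * (L + 1) * L ^ (k + 1)) ≤ (k + 3) * (16 * m) := by
      refine (Real.log_le_log (by positivity) (y := L ^ (k + 3)) ?_).trans ?_
      · rw [show L ^ (k + 3) = L ^ 2 * L ^ (k + 1) by ring]
        exact mul_le_mul_of_nonneg_right (by nlinarith) (by positivity)
      · rw [Real.log_pow, hL, show (64 : ℝ) * m ^ 2 = (8 * m) ^ 2 by ring, Real.log_pow]
        have := Real.log_le_sub_one_of_pos (show (0 : ℝ) < 8 * m by positivity)
        push_cast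
        exact mul_le_mul_of_nonneg_left (by linarith) (by positivity)
    have e6 : 0 ≤ Real.log (16 * (L + 1) * L ^ (k + 1)) := Real.log_nonneg (by
      have : 1 ≤ L ^ (k + 1) := one_le_pow₀ (by linarith)
      nlinarith)
    rw [e4]
    calc _ ≤ |C| * (I n).card * (G n).edgeFinset.card * (G n).diam *
          Real.log (16 * (L + 1) * L ^ (k + 1)) := by gcongr; exact le_abs_self C
      _ ≤ |C| * L * (4 * L) * 4 * ((k + 3) * (16 * m)) := by gcongr
      _ = (512 * |C| * (k + 3)) * (m * L ^ 2 / 2) := by ring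
      _ < m * (m * L ^ 2 / 2) := mul_lt_mul_of_pos_right (by nlinarith [abs_nonneg C])
          (by positivity)
      _ = _ := by push_cast; ring

end Pool.Agent.Results.MP_bbed2d_pr.Counter
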